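import Pool.Agent.HMT.Stmts

/-!
# Squad HMT, row COB: bounded clique number or bounded independence number
-/

open scoped Classical

namespace Pool.Agent.HMT.H3

theorem thin_clique {V : Type} [Finite V] {g m : ℕ} {G : SimpleGraph V} (h : Thin g G)
    (hm : 2 * m < Nat.card V) : ¬ Gᶜ.CliqueFree m := by
  have hF : Fintype V := Fintype.ofFinite V
  obtain ⟨C⟩ := h.1
  rw [Nat.card_eq_fintype_card] at hm
  obtain ⟨y, hy⟩ := Fintype.exists_lt_card_fiber_of_mul_lt_card (f := C) (n := m)
    (by rw [Fintype.card_fin]; exact hm)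
  obtain ⟨t, ht, htc⟩ := Finset.exists_subset_card_eq hy.le
  intro hf
  apply hf t
  rw [SimpleGraph.isNClique_iff]
  refine ⟨?_, htc⟩
  intro a ha b hb hab
  rw [SimpleGraph.compl_adj]
  refine ⟨hab, fun hadj => ?_⟩
  have h1 := (Finset.mem_filter.1 (ht ha)).2
  have h2 := (Finset.mem_filter.1 (ht hb)).2
  exact C.valid hadj (h1.trans h2.symm)

theorem cob (mai : MaiStmt) : CobStmt := by
  intro P m h
  apply mai P 1 (2 * m)
  rcases h with h | h
  · right
    intro V W _ _ G H hG hH hc hm _ _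
    have h1 : ¬ P.co.mem G := fun h' => thin_clique hG hm (h V Gᶜ h')
    have h2 : ¬ P.co.mem H := fun h' => thin_clique hH (hc ▸ hm) (h W Hᶜ h')
    exact ⟨fun h' => absurd h' h1, fun h' => absurd h' h2⟩
  · left
    intro V W _ _ G H hG hH hc hm _ _
    have h1 : ¬ P.mem G := fun h' => thin_clique hG hm (h V G h')
    have h2 : ¬ P.mem H := fun h' => thin_clique hH (hc ▸ hm) (h W H h')
    exact ⟨fun h' => absurd h' h1, fun h' => absurd h' h2⟩

end Pool.Agent.HMT.H3
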