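import Pool.Agent.HMT.Stmts

/-!
# Squad HMT, row PIG: pigeonhole
-/

open scoped Classical

namespace Pool.Agent.HMT.H3

variable {F : Fr}

theorem con_mono {A B : Finset F.R} (h : A ⊆ B) {v : F.J ⊕ F.R} {l : F.J} (hc : F.Con A v l) :
    F.Con B v l := by
  induction hc with
  | root j => exact Fr.Con.root j
  | step r j hr _ ih => exact Fr.Con.step r j (h hr) ih

theorem con_inl {A : Finset F.R} {j l : F.J} (h : F.Con A (Sum.inl j) l) : j = l := by
  cases h
  rfl

theorem con_inr {A : Finset F.R} {r : F.R} {l : F.J} (h : F.Con A (Sum.inr r) l) :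
    r ∈ A ∧ F.Con A (F.par r) l := by
  cases h with
  | step _ _ h1 h2 => exact ⟨h1, h2⟩

theorem con_uniq {A : Finset F.R} {v : F.J ⊕ F.R} {l l' : F.J} (h : F.Con A v l)
    (h' : F.Con A v l') : l = l' := by
  induction h with
  | root j => exact con_inl h'
  | step r j _ _ ih => exact ih (con_inr h').2

/-- the component of the hub `l`, without the hub -/
abbrev D (A : Finset F.R) (l : F.J) : Type := {r : F.R // F.Con A (Sum.inr r) l}

/-- parents in coordinates -/
noncomputable def pc (A : Finset F.R) (l : F.J) {m : ℕ} (c : Fin m ≃ D A l) (x : Fin m) :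
    Option (Fin m) :=
  match F.par (c x).1 with
  | Sum.inl _ => none
  | Sum.inr r' => if h : F.Con A (Sum.inr r') l then some (c.symm ⟨r', h⟩) else none

theorem pc_inl {A : Finset F.R} {l : F.J} {m : ℕ} (c : Fin m ≃ D A l) (x : Fin m) {j : F.J}
    (h : F.par (c x).1 = Sum.inl j) : pc A l c x = none := by
  unfold pc
  rw [h]

theorem pc_inr {A : Finset F.R} {l : F.J} {m : ℕ} (c : Fin m ≃ D A l) (x : Fin m) {r : F.R}
    (h : F.par (c x).1 = Sum.inr r) (hr : F.Con A (Sum.inr r) l) :
    pc A l c x = some (c.symm ⟨r, hr⟩) := by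
  unfold pc
  rw [h]
  exact dif_pos hr

/-- the exchange -/
noncomputable def psi (A : Finset F.R) (j k : F.J) (e : D A j ≃ D A k) (r : F.R) : F.R :=
  if h : F.Con A (Sum.inr r) j then (e ⟨r, h⟩).1
  else if h' : F.Con A (Sum.inr r) k then (e.symm ⟨r, h'⟩).1 else r

theorem psi_j {A : Finset F.R} {j k : F.J} (e : D A j ≃ D A k) {r : F.R}
    (h : F.Con A (Sum.inr r) j) : psi A j k e r = (e ⟨r, h⟩).1 := dif_pos h

theorem psi_k {A : Finset F.R} {j k : F.J} (hjk : j ≠ k) (e : D A j ≃ D A k) {r : F.R}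
    (h : F.Con A (Sum.inr r) k) : psi A j k e r = (e.symm ⟨r, h⟩).1 := by
  unfold psi
  rw [dif_neg (fun h' => hjk (con_uniq h' h)), dif_pos h]

theorem psi_fix {A : Finset F.R} {j k : F.J} (e : D A j ≃ D A k) {r : F.R}
    (h : ¬ F.Con A (Sum.inr r) j) (h' : ¬ F.Con A (Sum.inr r) k) : psi A j k e r = r := by
  unfold psi
  rw [dif_neg h, dif_neg h']

theorem psi_inv {A : Finset F.R} {j k : F.J} (hjk : j ≠ k) (e : D A j ≃ D A k) :
    Function.Involutive (psi A j k e) := by
  intro r
  by_cases h : F.Con A (Sum.inr r) j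
  · rw [psi_j e h, psi_k hjk e (e ⟨r, h⟩).2, Subtype.coe_eta, Equiv.symm_apply_apply]
  · by_cases h' : F.Con A (Sum.inr r) k
    · rw [psi_k hjk e h', psi_j e (e.symm ⟨r, h'⟩).2, Subtype.coe_eta, Equiv.apply_symm_apply]
    · rw [psi_fix e h h', psi_fix e h h']

/-- the exchange as a permutation -/
noncomputable def Psi (A : Finset F.R) {j k : F.J} (hjk : j ≠ k) (e : D A j ≃ D A k) :
    Equiv.Perm F.R := (psi_inv hjk e).toPerm

theorem Psi_apply {A : Finset F.R} {j k : F.J} (hjk : j ≠ k) (e : D A j ≃ D A k) (r : F.R) :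
    Psi A hjk e r = psi A j k e r := rfl

theorem hat_hat {A : Finset F.R} {j k : F.J} (hjk : j ≠ k) (e : D A j ≃ D A k)
    (v : F.J ⊕ F.R) : F.hat j k (Psi A hjk e) (F.hat j k (Psi A hjk e) v) = v := by
  rcases v with v | r
  · change Sum.inl (Equiv.swap j k (Equiv.swap j k v)) = Sum.inl v
    rw [Equiv.swap_apply_self]
  · change Sum.inr (psi A j k e (psi A j k e r)) = Sum.inr r
    rw [psi_inv hjk e r]

theorem xch_of {A : Finset F.R} {s : ℕ} {j k : F.J} (hjk : j ≠ k) (e : D A j ≃ D A k)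
    (h : (∀ r, F.Con A (Sum.inr r) j →
        F.par (Psi A hjk e r) = F.hat j k (Psi A hjk e) (F.par r)) ∨
      (s < Nat.card (D A j) ∧ s < Nat.card (D A k))) :
    F.Xch A s j k (Psi A hjk e) where
  ne := hjk
  jk := fun r hr => by
    rw [Psi_apply, psi_j e hr]
    exact (e ⟨r, hr⟩).2
  kj := fun r hr => by
    rw [Psi_apply, psi_k hjk e hr]
    exact (e.symm ⟨r, hr⟩).2
  fix := fun r h1 h2 => by
    rw [Psi_apply, psi_fix e h1 h2]
  small := by
    rcases h with h | ⟨h1, h2⟩
    · left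
      rintro r (hr | hr)
      · exact h r hr
      · have h0 : F.Con A (Sum.inr (Psi A hjk e r)) j := by
          rw [Psi_apply, psi_k hjk e hr]
          exact (e.symm ⟨r, hr⟩).2
        have h3 := h _ h0
        have h4 : Psi A hjk e (Psi A hjk e r) = r := psi_inv hjk e r
        rw [h4] at h3
        rw [h3, hat_hat]
    · right
      have key : ∀ l : F.J, Nat.card (D A l) ≤ Nat.card {v : F.J ⊕ F.R // F.Con A v l} := by
        intro l
        apply Nat.card_le_card_of_injective
          (fun r : D A l => (⟨Sum.inr r.1, r.2⟩ : {v : F.J ⊕ F.R // F.Con A v l}))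
        intro r r' hrr
        have := congrArg Subtype.val hrr
        exact Subtype.ext (Sum.inr_injective this)
      exact ⟨h1.trans_le (key j), h2.trans_le (key k)⟩

theorem par_of {A : Finset F.R} {m : ℕ} {j k : F.J} (hjk : j ≠ k) (c : Fin m ≃ D A j)
    (d : Fin m ≃ D A k) (h : ∀ x, pc A j c x = pc A k d x) (r : F.R)
    (hr : F.Con A (Sum.inr r) j) :
    F.par (Psi A hjk (c.symm.trans d) r) =
      F.hat j k (Psi A hjk (c.symm.trans d)) (F.par r) := by
  have hx : c (c.symm ⟨r, hr⟩) = ⟨r, hr⟩ := c.apply_symm_apply _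
  have e1 : Psi A hjk (c.symm.trans d) r = (d (c.symm ⟨r, hr⟩)).1 := by
    rw [Psi_apply, psi_j _ hr]
    rfl
  rw [e1]
  have hp := h (c.symm ⟨r, hr⟩)
  have hdk := (con_inr (d (c.symm ⟨r, hr⟩)).2).2
  have hcj := (con_inr hr).2
  have hpc : F.par (c (c.symm ⟨r, hr⟩)).1 = F.par r := by rw [hx]
  rcases hj : F.par r with j' | r'
  · rw [hj] at hpc hcj
    have hj' := con_inl hcj
    subst hj'
    rw [pc_inl c _ hpc] at hp
    rcases hk : F.par (d (c.symm ⟨r, hr⟩)).1 with k' | r''
    · rw [hk] at hdk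
      have hk' := con_inl hdk
      subst hk'
      change Sum.inl k' = Sum.inl (Equiv.swap j' k' j')
      rw [Equiv.swap_apply_left]
    · rw [hk] at hdk
      rw [pc_inr d _ hk hdk] at hp
      cases hp
  · rw [hj] at hpc hcj
    rw [pc_inr c _ hpc hcj] at hp
    rcases hk : F.par (d (c.symm ⟨r, hr⟩)).1 with k' | r''
    · rw [pc_inl d _ hk] at hp
      cases hp
    · rw [hk] at hdk
      rw [pc_inr d _ hk hdk] at hp
      have h1 := Option.some.inj hp
      have h2 : d (c.symm ⟨r', hcj⟩) = ⟨r'', hdk⟩ := by rw [h1, d.apply_symm_apply]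
      have h3 : Psi A hjk (c.symm.trans d) r' = r'' := by
        rw [Psi_apply, psi_j _ hcj]
        change (d (c.symm ⟨r', hcj⟩)).1 = r''
        rw [h2]
      change Sum.inr r'' = Sum.inr (Psi A hjk (c.symm.trans d) r')
      rw [h3]

/-- row PIG -/
theorem pig : PigStmt := by
  intro F s M hM hcard A
  have hbd : ∀ l : F.J, Nat.card (D A l) ≤ M := by
    intro l
    refine le_trans ?_ (hM l)
    apply Nat.card_le_card_of_injective
      (fun r : D A l => (⟨r.1, con_mono (Finset.subset_univ A) r.2⟩ :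
        {r : F.R // F.Con Finset.univ (Sum.inr r) l}))
    intro r r' hrr
    have := congrArg Subtype.val hrr
    exact Subtype.ext this
  -- the codes of small trees
  have hrep : ∀ l : F.J, Nat.card (D A l) ≤ s →
      ∃ σ : (Σ m : Fin (s + 1), (Fin m.val → Option (Fin m.val))),
        ∃ c : Fin σ.1.val ≃ D A l, ∀ x, pc A l c x = σ.2 x := by
    intro l hl
    exact ⟨⟨⟨Nat.card (D A l), by omega⟩, fun x => pc A l (Finite.equivFin (D A l)).symm x⟩,
      (Finite.equivFin (D A l)).symm, fun x => rfl⟩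
  obtain ⟨j, k, hjk, hst⟩ := Fintype.exists_ne_map_eq_of_card_lt
    (fun l : F.J => if h : Nat.card (D A l) ≤ s then
      (Sum.inl (hrep l h).choose :
        (Σ m : Fin (s + 1), (Fin m.val → Option (Fin m.val))) ⊕ Fin (M + 1))
      else Sum.inr ⟨Nat.card (D A l), Nat.lt_succ_of_le (hbd l)⟩)
    (by
      rw [Fintype.card_sum, Fintype.card_fin]
      exact hcard)
  by_cases h1 : Nat.card (D A j) ≤ s
  · by_cases h2 : Nat.card (D A k) ≤ s
    · simp only [dif_pos h1, dif_pos h2] at hst
      have hσ := Sum.inl_injective hst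
      obtain ⟨c, hc⟩ := (hrep j h1).choose_spec
      have hk := (hrep k h2).choose_spec
      rw [← hσ] at hk
      obtain ⟨d, hd⟩ := hk
      refine ⟨j, k, Psi A hjk (c.symm.trans d), xch_of hjk _ (Or.inl ?_)⟩
      intro r hr
      exact par_of hjk c d (fun x => (hc x).trans (hd x).symm) r hr
    · simp only [dif_pos h1, dif_neg h2] at hst
      cases hst
  · by_cases h2 : Nat.card (D A k) ≤ s
    · simp only [dif_neg h1, dif_pos h2] at hst
      cases hst
    · simp only [dif_neg h1, dif_neg h2] at hst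
      have h3 := Fin.mk.inj_iff.1 (Sum.inr_injective hst)
      have e : D A j ≃ D A k :=
        (Finite.equivFin (D A j)).trans ((finCongr h3).trans (Finite.equivFin (D A k)).symm)
      exact ⟨j, k, Psi A hjk e, xch_of hjk e (Or.inr ⟨not_le.1 h1, not_le.1 h2⟩)⟩

end Pool.Agent.HMT.H3
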